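import Pool.Agent.Helper57.SI.Stmts

/-!
# The upper bounds for the Euler product and its logarithmic derivative
-/

set_option autoImplicit false

namespace Pool.Agent.Helper72.SI

open MeasureTheory Set Filter Topology
open Pool.Agent.Helper57.QZ (Pr tor circ aa Zy Wy Sy Vy Ky Fy pt lin)
open Pool.Agent.Helper57.SI

theorem du_aa (p : ℕ) : aa 1 p = 1 / (p : ℝ) := by
  unfold aa
  rw [Real.rpow_neg_one, one_div]

theorem du_sum (y x : ℕ) (f : ℕ → ℝ) (hf : ∀ n, 0 ≤ f n) :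
    ∑ p : Pr y, (if x < (p : ℕ) then 0 else f (p : ℕ)) ≤
      ∑ p ∈ Nat.primesBelow (x + 1), f p := by
  have h1 : ∑ p : Pr y, (if x < (p : ℕ) then 0 else f (p : ℕ)) =
      ∑ p ∈ Nat.primesBelow (y + 1), (if x < p then 0 else f p) :=
    Finset.sum_coe_sort (Nat.primesBelow (y + 1)) (fun p => if x < p then 0 else f p)
  rw [h1]
  have h2 : ∑ p ∈ Nat.primesBelow (y + 1), (if x < p then 0 else f p) =
      ∑ p ∈ (Nat.primesBelow (y + 1)).filter (fun p => ¬ x < p), f p := by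
    rw [Finset.sum_filter]
    refine Finset.sum_congr rfl fun p _ => ?_
    by_cases h : x < p
    · simp [h]
    · simp [h]
  rw [h2]
  refine Finset.sum_le_sum_of_subset_of_nonneg ?_ fun i _ _ => hf i
  intro p hp
  rw [Finset.mem_filter, Nat.mem_primesBelow] at hp
  rw [Nat.mem_primesBelow]
  exact ⟨by omega, hp.1.2⟩

theorem du_S (y x : ℕ) (φ : Pr y → ℝ) : Sy y 1 φ ≤ P1 x + (tl 0 y x φ).re := by
  have h1 : Sy y 1 φ = ∑ p : Pr y, (if x < (p : ℕ) then 0 else 1 / ((p : ℕ) : ℝ) *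
      Real.cos (φ p)) + (tl 0 y x φ).re := by
    unfold Sy tl
    rw [Complex.re_sum, ← Finset.sum_add_distrib]
    refine Finset.sum_congr rfl fun p _ => ?_
    rw [du_aa]
    by_cases h : x < (p : ℕ)
    · rw [if_pos h, if_pos h, zero_add, Complex.re_ofReal_mul, pow_zero]
      congr 1
      rw [show -((φ p : ℂ) * Complex.I) = ((-(φ p) : ℝ) : ℂ) * Complex.I by push_cast; ring,
        Complex.exp_ofReal_mul_I_re, Real.cos_neg]
    · rw [if_neg h, if_neg h]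
      simp
  rw [h1]
  refine add_le_add ?_ le_rfl
  refine le_trans (Finset.sum_le_sum fun p _ => ?_) (du_sum y x (fun p => 1 / (p : ℝ))
    fun n => by positivity)
  by_cases h : x < (p : ℕ)
  · rw [if_pos h, if_pos h]
  · rw [if_neg h, if_neg h]
    have hc := Real.cos_le_one (φ p)
    have hp : 0 ≤ 1 / ((p : ℕ) : ℝ) := by positivity
    nlinarith

theorem du_V (y x : ℕ) (φ : Pr y → ℝ) : ‖Vy y 1 φ‖ ≤ P2 x + ‖tl 1 y x φ‖ := by
  have h1 : Vy y 1 φ = ∑ p : Pr y, (if x < (p : ℕ) then 0 else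
      ((Real.log ((p : ℕ) : ℝ) / ((p : ℕ) : ℝ) : ℝ) : ℂ) *
        Complex.exp (-((φ p : ℂ) * Complex.I))) + tl 1 y x φ := by
    unfold Vy tl
    rw [← Finset.sum_add_distrib]
    refine Finset.sum_congr rfl fun p _ => ?_
    rw [du_aa]
    have e : (1 / ((p : ℕ) : ℝ)) * Real.log ((p : ℕ) : ℝ) =
        Real.log ((p : ℕ) : ℝ) / ((p : ℕ) : ℝ) := by ring
    by_cases h : x < (p : ℕ)
    · rw [if_pos h, if_pos h, zero_add, pow_one, e]
    · rw [if_neg h, if_neg h, add_zero, e]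
  rw [h1]
  refine le_trans (norm_add_le _ _) (add_le_add ?_ le_rfl)
  refine le_trans (norm_sum_le _ _) ?_
  refine le_trans (Finset.sum_le_sum fun p _ => ?_)
    (du_sum y x (fun p => Real.log p / (p : ℝ)) fun n => ?_)
  · by_cases h : x < (p : ℕ)
    · rw [if_pos h, if_pos h, norm_zero]
    · rw [if_neg h, if_neg h, norm_mul, Complex.norm_real,
        show -((φ p : ℂ) * Complex.I) = ((-(φ p) : ℝ) : ℂ) * Complex.I by push_cast; ring,
        Complex.norm_exp_ofReal_mul_I, mul_one, Real.norm_eq_abs, abs_of_nonneg]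
      exact div_nonneg (Real.log_natCast_nonneg _) (Nat.cast_nonneg _)
  · exact div_nonneg (Real.log_natCast_nonneg _) (Nat.cast_nonneg _)

theorem st_DU (h1 : Pool.Agent.Helper57.QZ.ST_DT1) (h2 : Pool.Agent.Helper57.QZ.ST_DT2) :
    ST_DU := by
  obtain ⟨C, hC⟩ := h2 (1 / 4) (by norm_num)
  refine ⟨C, fun y x φ η h0 h1' => ⟨?_, ?_⟩⟩
  · obtain ⟨hz, hl, -, -⟩ := h1 y 1 φ (by norm_num)
    have hpos : 0 < ‖Zy y 1 φ‖ := norm_pos_iff.mpr hz
    rw [← Real.exp_log hpos]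
    refine Real.exp_le_exp.mpr (le_trans hl ?_)
    have h3 := du_S y x φ
    have h4 : (tl 0 y x φ).re ≤ η := le_trans (Complex.re_le_norm _) h0
    linarith
  · have h3 := hC y 1 φ (by norm_num)
    have h4 : ‖Wy y 1 φ‖ ≤ ‖Wy y 1 φ + Vy y 1 φ‖ + ‖Vy y 1 φ‖ := by
      have e : Wy y 1 φ = (Wy y 1 φ + Vy y 1 φ) - Vy y 1 φ := by ring
      calc ‖Wy y 1 φ‖ = ‖(Wy y 1 φ + Vy y 1 φ) - Vy y 1 φ‖ := by rw [← e]
        _ ≤ _ := norm_sub_le _ _
    have h5 := du_V y x φ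
    linarith

end Pool.Agent.Helper72.SI
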